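import Pool.Agent.Helper24.HW.Stmts

set_option autoImplicit false

namespace Pool.Agent.Helper35.HW

open Equiv Equiv.Perm Pool.Agent.Helper24.HW Pool.Agent.Helper24.HWPub Pool.Agent.Helper98.Gn

theorem um_nsc {D D' : Type} [Finite D] [Finite D'] (f : Perm D) (g : Perm D') (x : D) (y : D') :
    ¬ SameCycle (Perm.sumCongr f g) (Sum.inl x) (Sum.inr y) := by
  intro h
  have h2 : (Sum.inr y : D ⊕ D') ∈ {z : D ⊕ D' | ∃ u, z = Sum.inl u} := by
    refine mem_of_sc ?_ h ⟨x, rfl⟩
    rintro z ⟨u, rfl⟩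
    exact ⟨f u, by simp⟩
  obtain ⟨u, hu⟩ := h2
  exact absurd hu (by simp)

theorem um_mul {D D' : Type} [DecidableEq D] [DecidableEq D'] (f α : Perm D) (g β : Perm D')
    (hα : ∀ x, α (α x) = x) (hβ : ∀ x, β (β x) = x) (a : D) (b : D') :
    Perm.sumCongr f g * swap (Sum.inl a) (Sum.inr b) * Perm.sumCongr α β =
      Perm.sumCongr (f * α) (g * β) * swap (Sum.inl (α a)) (Sum.inr (β b)) := by
  have h1 : (Perm.sumCongr α β)⁻¹ (Sum.inl a) = Sum.inl (α a) := by
    rw [Perm.inv_eq_iff_eq]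
    simp [hα]
  have h2 : (Perm.sumCongr α β)⁻¹ (Sum.inr b) = Sum.inr (β b) := by
    rw [Perm.inv_eq_iff_eq]
    simp [hβ]
  rw [mul_assoc, swap_mul_eq_mul_swap, h1, h2, ← mul_assoc, Perm.sumCongr_mul]

theorem UM (h1 : ST_SUM) (h2 : ST_PTM) (h3 : ST_PTU) (h4 : ST_PAR) : ST_UM := by
  intro C _ M P a b h
  have hn := um_nsc M.σ P.σ a b
  refine ⟨?_, ?_, ?_, ?_⟩
  · have e1 : cyc (M.um P a b h).σ + 1 = cyc M.σ + cyc P.σ := by
      have := cyc_merge hn
      rw [h1] at this
      exact this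
    have e2 : cyc ((M.um P a b h).σ * (M.um P a b h).α) + 1 =
        cyc (M.σ * M.α) + cyc (P.σ * P.α) := by
      have := cyc_merge (um_nsc (M.σ * M.α) (P.σ * P.α) (M.α a) (P.α b))
      rw [h1, ← um_mul M.σ M.α P.σ P.α M.hα P.hα] at this
      exact this
    have e3 : Nat.card (M.um P a b h).D = Nat.card M.D + Nat.card P.D := Nat.card_sum
    obtain ⟨u, hu⟩ := (h4 C M).2
    obtain ⟨v, hv⟩ := (h4 C P).2
    have e4 : Nat.card (M.um P a b h).D / 2 = Nat.card M.D / 2 + Nat.card P.D / 2 := by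
      rw [e3, hu, hv]
      omega
    unfold LM.chi
    rw [e4]
    push_cast
    have e1' : (cyc (M.um P a b h).σ : ℤ) + 1 = cyc M.σ + cyc P.σ := by exact_mod_cast e1
    have e2' : (cyc ((M.um P a b h).σ * (M.um P a b h).α) : ℤ) + 1 =
        cyc (M.σ * M.α) + cyc (P.σ * P.α) := by exact_mod_cast e2
    linarith
  · intro A
    have hl : ∀ x y : M.D ⊕ P.D, (SameCycle.setoid (Perm.sumCongr M.σ P.σ)) x y →
        Sum.elim M.ℓ P.ℓ x = Sum.elim M.ℓ P.ℓ y := by
      intro x y hxy
      refine sc_induct (π := Perm.sumCongr M.σ P.σ)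
        (fun x y => Sum.elim M.ℓ P.ℓ x = Sum.elim M.ℓ P.ℓ y) (fun _ => rfl)
        (fun _ _ _ p q => p.trans q) ?_ hxy
      rintro (z | z)
      · simp [M.hℓ]
      · simp [P.hℓ]
    have h5 := h2 (M.D ⊕ P.D) C (SameCycle.setoid (Perm.sumCongr M.σ P.σ))
      (SameCycle.setoid (Perm.sumCongr M.σ P.σ * swap (Sum.inl a) (Sum.inr b)))
      (Sum.elim M.ℓ P.ℓ) (Sum.inl a) (Sum.inr b) hl h hn (sc_merge hn) A
    rw [h3] at h5
    exact h5
  · rintro A B (⟨x, hx1, hx2⟩ | ⟨x, hx1, hx2⟩)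
    · exact ⟨Sum.inl x, hx1, hx2⟩
    · exact ⟨Sum.inr x, hx1, hx2⟩
  · intro hM hP
    set σ' : Perm (M.D ⊕ P.D) := Perm.sumCongr M.σ P.σ * swap (Sum.inl a) (Sum.inr b) with hσ'
    set α' : Perm (M.D ⊕ P.D) := Perm.sumCongr M.α P.α with hα'
    change ∀ x y : M.D ⊕ P.D, Relation.EqvGen (fun u v => v = σ' u ∨ v = α' u) x y
    have s1 : ∀ z, Relation.EqvGen (fun u v => v = σ' u ∨ v = α' u) z (σ' z) :=
      fun z => Relation.EqvGen.rel _ _ (Or.inl rfl)
    have s2 : ∀ z, Relation.EqvGen (fun u v => v = σ' u ∨ v = α' u) z (α' z) :=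
      fun z => Relation.EqvGen.rel _ _ (Or.inr rfl)
    have s3 : Relation.EqvGen (fun u v => v = σ' u ∨ v = α' u) (Sum.inl a) (Sum.inr b) := by
      refine sc_induct (π := σ') (Relation.EqvGen (fun u v => v = σ' u ∨ v = α' u))
        (fun _ => Relation.EqvGen.refl _) (fun _ _ _ p q => p.trans _ _ _ q) s1 ?_
      exact sc_merge_xy hn
    have q1 : σ' (Sum.inl a) = Sum.inr (P.σ b) := by simp [hσ']
    have q2 : σ' (Sum.inr b) = Sum.inl (M.σ a) := by simp [hσ']
    have s4 : ∀ x, Relation.EqvGen (fun u v => v = σ' u ∨ v = α' u) (Sum.inl x)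
        (Sum.inl (M.σ x)) := by
      intro x
      by_cases hx : x = a
      · rw [hx, ← q2]
        exact s3.trans _ _ _ (s1 _)
      · have hx1 : (Sum.inl x : M.D ⊕ P.D) ≠ Sum.inl a := fun e => hx (Sum.inl.inj e)
        have hx2 : σ' (Sum.inl x) = Sum.inl (M.σ x) := by
          rw [hσ', Perm.mul_apply, swap_apply_of_ne_of_ne hx1 (by simp)]
          simp
        rw [← hx2]
        exact s1 _
    have s5 : ∀ x, Relation.EqvGen (fun u v => v = σ' u ∨ v = α' u) (Sum.inr x)
        (Sum.inr (P.σ x)) := by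
      intro x
      by_cases hx : x = b
      · rw [hx, ← q1]
        exact (s3.symm _ _).trans _ _ _ (s1 _)
      · have hx1 : (Sum.inr x : M.D ⊕ P.D) ≠ Sum.inr b := fun e => hx (Sum.inr.inj e)
        have hx2 : σ' (Sum.inr x) = Sum.inr (P.σ x) := by
          rw [hσ', Perm.mul_apply, swap_apply_of_ne_of_ne (by simp) hx1]
          simp
        rw [← hx2]
        exact s1 _
    have s6 : ∀ x y : M.D, Relation.EqvGen (fun u v => v = σ' u ∨ v = α' u) (Sum.inl x)
        (Sum.inl y) := by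
      intro x y
      induction hM x y with
      | rel u v huv =>
        rcases huv with huv | huv
        · rw [huv]; exact s4 _
        · rw [huv]
          have := s2 (Sum.inl u)
          simpa [hα'] using this
      | refl u => exact Relation.EqvGen.refl _
      | symm u v _ ih => exact ih.symm _ _
      | trans u v w _ _ ih1 ih2 => exact ih1.trans _ _ _ ih2
    have s7 : ∀ x y : P.D, Relation.EqvGen (fun u v => v = σ' u ∨ v = α' u) (Sum.inr x)
        (Sum.inr y) := by
      intro x y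
      induction hP x y with
      | rel u v huv =>
        rcases huv with huv | huv
        · rw [huv]; exact s5 _
        · rw [huv]
          have := s2 (Sum.inr u)
          simpa [hα'] using this
      | refl u => exact Relation.EqvGen.refl _
      | symm u v _ ih => exact ih.symm _ _
      | trans u v w _ _ ih1 ih2 => exact ih1.trans _ _ _ ih2
    have s8 : ∀ (x : M.D) (y : P.D), Relation.EqvGen (fun u v => v = σ' u ∨ v = α' u) (Sum.inl x)
        (Sum.inr y) := fun x y => (s6 x a).trans _ _ _ (s3.trans _ _ _ (s7 b y))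
    rintro (x | x) (y | y)
    · exact s6 x y
    · exact s8 x y
    · exact (s8 y x).symm _ _
    · exact s7 x y

end Pool.Agent.Helper35.HW
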